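import Mathlib

set_option autoImplicit false

namespace Pool.Agent.Results.MP_a93e77_co.Main

/-- Strongly regular: every edge lies in the same number of triangles, and every two distinct
nonadjacent vertices have the same number of common neighbours. -/
def StronglyRegular {V : Type} (G : SimpleGraph V) : Prop :=
  (∃ l : ℕ, ∀ u v : V, G.Adj u v → {w : V | G.Adj u w ∧ G.Adj v w}.ncard = l) ∧
  (∃ m : ℕ, ∀ u v : V, u ≠ v → ¬ G.Adj u v → {w : V | G.Adj u w ∧ G.Adj v w}.ncard = m)

/-- `F(G)`: the vertices fixed by some isomorphism of `G` onto its complement. -/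
def FSet {V : Type} (G : SimpleGraph V) : Set V := {v | ∃ P : G ≃g Gᶜ, P v = v}

/-- `N(G)`: the edges `uv` such that `P u = v` or `P v = u` for some isomorphism `P` of `G` onto
its complement. -/
def NSet {V : Type} (G : SimpleGraph V) : Set (Sym2 V) :=
  {e | e ∈ G.edgeSet ∧ ∃ (P : G ≃g Gᶜ) (u : V), e = s(u, P u)}

/-- The assertion of Q1. -/
def Assertion : Prop :=
  ∀ (V : Type) [Finite V] (G : SimpleGraph V),
    Nonempty (G ≃g Gᶜ) →
    (∃ d : ℕ, ∀ v : V, (G.neighborSet v).ncard = d) →
    (StronglyRegular G ↔ FSet G = Set.univ ∧ NSet G = G.edgeSet)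

/-- connection set -/
def S : Finset (ZMod 17) := {1, 3, 4, 5, 12, 13, 14, 16}

/-- the circulant graph on 17 vertices -/
def G17 : SimpleGraph (ZMod 17) where
  Adj x y := y - x ∈ S
  symm := ⟨fun x y h => by
    have hs : ∀ d : ZMod 17, d ∈ S → -d ∈ S := by unfold S; decide
    have := hs _ h
    rwa [neg_sub] at this⟩
  loopless := ⟨fun x h => by
    rw [sub_self] at h
    revert h
    unfold S
    decide⟩

theorem adj_iff (x y : ZMod 17) : G17.Adj x y ↔ y - x ∈ S := Iff.rfl

/-- the affine maps `x ↦ 9 x + b` -/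
def aff (b : ZMod 17) : ZMod 17 ≃ ZMod 17 where
  toFun x := 9 * x + b
  invFun x := 2 * (x - b)
  left_inv x := by
    have h : (2 : ZMod 17) * 9 = 1 := by decide
    linear_combination x * h
  right_inv x := by
    have h : (2 : ZMod 17) * 9 = 1 := by decide
    linear_combination (x - b) * h

theorem mul_nine : ∀ d : ZMod 17, d ≠ 0 → (9 * d ∉ S ↔ d ∈ S) := by unfold S; decide

/-- `x ↦ 9 x + b` is an isomorphism onto the complement -/
def affIso (b : ZMod 17) : G17 ≃g G17ᶜ :=
  ⟨aff b, fun {x y} => by
    rw [SimpleGraph.compl_adj, adj_iff, adj_iff]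
    have e : aff b y - aff b x = 9 * (y - x) := by
      show (9 * y + b) - (9 * x + b) = _
      ring
    rw [e]
    constructor
    · rintro ⟨h1, h2⟩
      have hne : y - x ≠ 0 := by
        intro h
        apply h1
        rw [sub_eq_zero] at h
        rw [h]
      exact (mul_nine _ hne).mp h2
    · intro h
      have hne : y - x ≠ 0 := by
        intro h0
        rw [h0] at h
        revert h
        unfold S
        decide
      refine ⟨?_, (mul_nine _ hne).mpr h⟩
      intro h3
      apply hne
      rw [(aff b).injective h3, sub_self]⟩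

theorem aff_apply (b x : ZMod 17) : affIso b x = 9 * x + b := rfl

/-- Q1 is false: the `if` part fails for a circulant graph on 17 vertices. -/
theorem result : ¬ Assertion := by
  intro h
  have hreg : ∃ d : ℕ, ∀ v : ZMod 17, (G17.neighborSet v).ncard = d := by
    refine ⟨8, fun v => ?_⟩
    have : G17.neighborSet v = ((S.image (fun d => v + d) : Finset (ZMod 17)) : Set (ZMod 17)) := by
      ext w
      simp only [SimpleGraph.mem_neighborSet, Finset.coe_image, Set.mem_image, Finset.mem_coe]
      rw [adj_iff]
      constructor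
      · intro hw
        exact ⟨w - v, hw, by ring⟩
      · rintro ⟨d, hd, rfl⟩
        rwa [add_sub_cancel_left]
    rw [this, Set.ncard_coe_finset, Finset.card_image_of_injective _ (add_right_injective v)]
    rfl
  have hF : FSet G17 = Set.univ := by
    ext v
    simp only [FSet, Set.mem_ofPred_eq, Set.mem_univ, iff_true]
    refine ⟨affIso (v - 9 * v), ?_⟩
    rw [aff_apply]
    ring
  have hN : NSet G17 = G17.edgeSet := by
    ext e
    constructor
    · exact fun h => h.1
    · intro he
      refine ⟨he, ?_⟩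
      induction e using Sym2.ind with
      | _ u v =>
        refine ⟨affIso (v - 9 * u), u, ?_⟩
        rw [aff_apply]
        congr 1
        ring_nf
  have hsr := (h (ZMod 17) G17 ⟨affIso 0⟩ hreg).mpr ⟨hF, hN⟩
  obtain ⟨⟨l, hl⟩, _⟩ := hsr
  have key : ∀ d : ZMod 17, {w : ZMod 17 | G17.Adj 0 w ∧ G17.Adj d w}.ncard
      = (Finset.univ.filter (fun w : ZMod 17 => w ∈ S ∧ w - d ∈ S)).card := by
    intro d
    rw [← Set.ncard_coe_finset]
    congr 1
    ext w
    simp only [Set.mem_ofPred_eq, Finset.coe_filter, Finset.mem_univ, true_and, adj_iff, sub_zero]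
  have h1 := hl 0 1 (by rw [adj_iff]; unfold S; decide)
  have h3 := hl 0 3 (by rw [adj_iff]; unfold S; decide)
  rw [key] at h1 h3
  have c1 : (Finset.univ.filter (fun w : ZMod 17 => w ∈ S ∧ w - 1 ∈ S)).card = 4 := by
    unfold S; decide +kernel
  have c3 : (Finset.univ.filter (fun w : ZMod 17 => w ∈ S ∧ w - 3 ∈ S)).card = 2 := by
    unfold S; decide +kernel
  omega

end Pool.Agent.Results.MP_a93e77_co.Main
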